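import Mathlib

/-!
# A graph with positive maximin-share rank for additive valuations

The cake is the graph consisting of a cycle with eight vertices and one pendant edge at each of them.
There are four agents; agent `i` has a value `c i v` spread uniformly over the pendant edge at the
cycle vertex `v` and no other value. Every agent can divide the cake into four connected pieces of
value `5`, but there is no allocation of disjoint connected pieces of value at least `5`.
-/

set_option autoImplicit false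
set_option linter.unusedSectionVars false

open MeasureTheory Set

namespace Pool.Agent.Results.MP_ee2dc8_co.PositiveAdditiveRank

/-! ### Cakes, pieces, maximin shares and the rank -/

section defs

variable {V : Type} [Fintype V] [DecidableEq V]

/-- The point of the edge `u v` which divides it in the ratio `t : (1 - t)`; for `t = 0` and `t = 1`
these are the vertices `u` and `v`. -/
def pt (u v : V) (t : ℝ) : V → ℝ := fun w => (if w = u then 1 - t else 0) + (if w = v then t else 0)

/-- The graph as a topological space: the subset of `ℝ ^ V` which consists of the vertices (the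
standard basis vectors) and of the segments between adjacent vertices. -/
def Cake (G : SimpleGraph V) : Set (V → ℝ) :=
  {x | (∃ v, x = Pi.single v 1) ∨ ∃ u v, G.Adj u v ∧ ∃ t ∈ Icc (0 : ℝ) 1, x = pt u v t}

/-- A piece: a part of the cake that meets every edge in a finite union of intervals. -/
def IsPiece (G : SimpleGraph V) (X : Set (V → ℝ)) : Prop :=
  X ⊆ Cake G ∧ ∀ u v, G.Adj u v → ∃ (k : ℕ) (I : Fin k → Set ℝ), (∀ j, (I j).OrdConnected) ∧
    {t : ℝ | t ∈ Icc (0 : ℝ) 1 ∧ pt u v t ∈ X} = ⋃ j, I j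

/-- A piece is connected if any two of its points are joined by a path inside it. -/
def IsConn (X : Set (V → ℝ)) : Prop := ∀ x ∈ X, ∀ y ∈ X, JoinedIn X x y

/-- The value of a piece for the agent whose valuation is the measure `μ`. -/
noncomputable def value (μ : Measure (V → ℝ)) (X : Set (V → ℝ)) : ℝ := (μ X).toReal

/-- The 1-out-of-`k` maximin share: the supremum of the numbers `r` such that the cake is the union of
`k` pairwise disjoint connected pieces of value at least `r`. -/
noncomputable def mms (G : SimpleGraph V) (μ : Measure (V → ℝ)) (k : ℕ) : ℝ :=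
  sSup {r : ℝ | ∃ P : Fin k → Set (V → ℝ), (∀ j, IsPiece G (P j) ∧ IsConn (P j)) ∧
    (∀ i j, i ≠ j → Disjoint (P i) (P j)) ∧ (⋃ j, P j) = Cake G ∧ ∀ j, r ≤ value μ (P j)}

/-- For every `n ≥ 1` and all `n` agents with additive valuations (finite measures without atoms on
the cake) there are pairwise disjoint connected pieces such that every agent `i` gets at least her
1-out-of-`(n + r)` maximin share. -/
def Guarantee (G : SimpleGraph V) (r : ℕ) : Prop :=
  ∀ n : ℕ, 1 ≤ n → ∀ μ : Fin n → Measure (V → ℝ), (∀ i, IsFiniteMeasure (μ i)) →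
    (∀ i x, μ i {x} = 0) → (∀ i, μ i (Cake G)ᶜ = 0) →
    ∃ Z : Fin n → Set (V → ℝ), (∀ i, IsPiece G (Z i) ∧ IsConn (Z i)) ∧
      (∀ i j, i ≠ j → Disjoint (Z i) (Z j)) ∧ ∀ i, mms G (μ i) (n + r) ≤ value (μ i) (Z i)

/-- The maximin-share rank for additive valuations: the least `r ≥ 0` with `Guarantee G r` (and `⊤`
if there is none). -/
noncomputable def mmsRankAdd (G : SimpleGraph V) : ℕ∞ :=
  sInf {r : ℕ∞ | ∃ k : ℕ, r = k ∧ Guarantee G k}

end defs

/-! ### Connected pieces -/

section conn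

variable {V : Type} [Fintype V] [DecidableEq V]

lemma pt_zero (u v : V) : pt u v 0 = Pi.single u 1 := by
  funext w
  by_cases h : w = u
  · subst h; simp [pt]
  · simp [pt, h]

lemma pt_one (u v : V) : pt u v 1 = Pi.single v 1 := by
  funext w
  by_cases h : w = v
  · subst h; simp [pt]
  · simp [pt, h]

lemma pt_comm (u v : V) (t : ℝ) : pt u v t = pt v u (1 - t) := by
  funext w
  simp only [pt]
  ring_nf

lemma continuous_pt (u v : V) : Continuous (pt u v) := by
  apply continuous_pi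
  intro w
  unfold pt
  apply Continuous.add
  · split_ifs
    · fun_prop
    · fun_prop
  · split_ifs
    · fun_prop
    · fun_prop

/-- sum of the coordinates in `S` -/
def tot (S : Finset V) (x : V → ℝ) : ℝ := ∑ v ∈ S, x v

lemma continuous_tot (S : Finset V) : Continuous (tot S) := by
  unfold tot
  fun_prop

lemma tot_single (S : Finset V) (v : V) : tot S (Pi.single v 1) = if v ∈ S then 1 else 0 := by
  unfold tot
  simp [Pi.single_apply]

lemma tot_pt (S : Finset V) (u v : V) (t : ℝ) :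
    tot S (pt u v t) = (if u ∈ S then 1 - t else 0) + (if v ∈ S then t else 0) := by
  unfold tot pt
  rw [Finset.sum_add_distrib, Finset.sum_ite_eq' S u, Finset.sum_ite_eq' S v]

/-- A connected part of the cake that avoids the neighbours outside `S` of a set `S` of vertices lies
on one side. -/
lemma side (G : SimpleGraph V) (S N : Finset V) (hN : ∀ u ∈ S, ∀ v, G.Adj u v → v ∈ S ∨ v ∈ N)
    (X : Set (V → ℝ)) (hX : X ⊆ Cake G) (hc : IsPreconnected X)
    (hav : ∀ v ∈ N, Pi.single v 1 ∉ X) :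
    (∀ x ∈ X, 0 < tot S x) ∨ (∀ x ∈ X, tot S x ≤ 0) := by
  classical
  let U : Set (V → ℝ) := {x | 0 < tot S x}
  let F : Set (V → ℝ) := ⋃ u ∈ S, ({Pi.single u 1} ∪ ⋃ v : V, pt u v '' Icc (0 : ℝ) 1 ∩
    {x | G.Adj u v})
  have hU : IsOpen U := isOpen_lt continuous_const (continuous_tot S)
  have hF : IsClosed F := by
    apply Set.Finite.isClosed_biUnion S.finite_toSet
    intro u _
    apply IsClosed.union isClosed_singleton
    apply isClosed_iUnion_of_finite
    intro v
    by_cases h : G.Adj u v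
    · have : {x : V → ℝ | G.Adj u v} = univ := by ext; simp [h]
      rw [this, inter_univ]
      exact (isCompact_Icc.image (continuous_pt u v)).isClosed
    · have : {x : V → ℝ | G.Adj u v} = ∅ := by ext; simp [h]
      rw [this, inter_empty]
      exact isClosed_empty
  have h1 : ∀ x ∈ X, x ∈ U → x ∈ F := by
    intro x hx hxU
    have hxU' : 0 < tot S x := hxU
    rcases hX hx with ⟨v, rfl⟩ | ⟨u, v, huv, t, ht, rfl⟩
    · rw [tot_single] at hxU'
      have hv : v ∈ S := by
        by_contra h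
        rw [if_neg h] at hxU'
        exact lt_irrefl _ hxU'
      simp only [F, mem_iUnion]
      exact ⟨v, hv, Or.inl rfl⟩
    · rw [tot_pt] at hxU'
      by_cases hu : u ∈ S
      · simp only [F, mem_iUnion]
        refine ⟨u, hu, Or.inr ?_⟩
        rw [mem_iUnion]
        exact ⟨v, ⟨t, ht, rfl⟩, huv⟩
      · by_cases hv : v ∈ S
        · simp only [F, mem_iUnion]
          refine ⟨v, hv, Or.inr ?_⟩
          rw [mem_iUnion]
          refine ⟨u, ⟨1 - t, ⟨by linarith [ht.2], by linarith [ht.1]⟩, ?_⟩, huv.symm⟩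
          rw [pt_comm u v t]
        · rw [if_neg hu, if_neg hv] at hxU'
          simp at hxU'
  have h2 : ∀ x ∈ X, x ∈ F → x ∈ U := by
    intro x hx hxF
    simp only [F, mem_iUnion] at hxF
    obtain ⟨u, hu, h | h⟩ := hxF
    · rw [mem_singleton_iff] at h
      show 0 < tot S x
      rw [h, tot_single, if_pos hu]
      exact one_pos
    · rw [mem_iUnion] at h
      obtain ⟨v, ⟨t, ht, rfl⟩, huv⟩ := h
      show 0 < tot S (pt u v t)
      rw [tot_pt, if_pos hu]
      have huv' : G.Adj u v := huv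
      rcases hN u hu v huv' with hv | hv
      · rw [if_pos hv]; linarith
      · by_cases hvS : v ∈ S
        · rw [if_pos hvS]; linarith
        · rw [if_neg hvS]
          have ht1 : t ≠ 1 := by
            rintro rfl
            rw [pt_one] at hx
            exact hav v hv hx
          have := lt_of_le_of_ne ht.2 ht1
          linarith
  have h3 := (isPreconnected_iff_subset_of_disjoint.1 hc) U Fᶜ hU hF.isOpen_compl
    (fun x hx => by
      by_cases h : x ∈ F
      · exact Or.inl (h2 x hx h)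
      · exact Or.inr h)
    (by
      ext x
      simp only [mem_inter_iff, mem_compl_iff, mem_empty_iff_false, iff_false]
      rintro ⟨hx, hxU, hxF⟩
      exact hxF (h1 x hx hxU))
  rcases h3 with h | h
  · exact Or.inl fun x hx => h hx
  · right
    intro x hx
    by_contra hcon
    push Not at hcon
    exact h hx (h1 x hx hcon)

lemma IsConn.isPreconnected {X : Set (V → ℝ)} (h : IsConn X) : IsPreconnected X := by
  rcases X.eq_empty_or_nonempty with rfl | ⟨x, hx⟩
  · exact isPreconnected_empty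
  · have : IsPathConnected X := by
      refine ⟨x, hx, ?_⟩
      intro y hy
      exact h x hx y hy
    exact this.isConnected.isPreconnected

/-- parts of the cake which contain or avoid the interior of every edge are pieces -/
lemma isPiece_of (G : SimpleGraph V) (X : Set (V → ℝ)) (hX : X ⊆ Cake G)
    (h : ∀ a b, G.Adj a b → (∀ t ∈ Ioo (0 : ℝ) 1, pt a b t ∈ X) ∨
      (∀ t ∈ Ioo (0 : ℝ) 1, pt a b t ∉ X)) : IsPiece G X := by
  classical
  refine ⟨hX, fun a b hab => ?_⟩
  refine ⟨3, ![{t | t = 0 ∧ pt a b 0 ∈ X}, {t | t = 1 ∧ pt a b 1 ∈ X},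
    {t | t ∈ Ioo (0 : ℝ) 1 ∧ ∀ s ∈ Ioo (0 : ℝ) 1, pt a b s ∈ X}], ?_, ?_⟩
  · intro j
    fin_cases j
    · refine ⟨?_⟩
      rintro x ⟨rfl, h1⟩ y ⟨rfl, -⟩ z hz
      exact ⟨le_antisymm hz.2 hz.1, h1⟩
    · refine ⟨?_⟩
      rintro x ⟨rfl, h1⟩ y ⟨rfl, -⟩ z hz
      exact ⟨le_antisymm hz.2 hz.1, h1⟩
    · refine ⟨?_⟩
      rintro x ⟨hx, h1⟩ y ⟨hy, -⟩ z hz
      exact ⟨⟨lt_of_lt_of_le hx.1 hz.1, lt_of_le_of_lt hz.2 hy.2⟩, h1⟩
  · ext t
    simp only [mem_ofPred_eq, mem_iUnion]
    constructor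
    · rintro ⟨ht, htX⟩
      rcases ht.1.eq_or_lt with h0 | h0
      · exact ⟨0, by simp [← h0]; rw [← h0] at htX; exact htX⟩
      · rcases ht.2.eq_or_lt with h1 | h1
        · exact ⟨1, by simp [h1]; rw [h1] at htX; exact htX⟩
        · refine ⟨2, ?_⟩
          show t ∈ Ioo (0 : ℝ) 1 ∧ ∀ s ∈ Ioo (0 : ℝ) 1, pt a b s ∈ X
          refine ⟨⟨h0, h1⟩, ?_⟩
          rcases h a b hab with h2 | h2
          · exact h2
          · exact absurd htX (h2 t ⟨h0, h1⟩)
    · rintro ⟨j, hj⟩
      fin_cases j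
      · obtain ⟨h1, h2⟩ : t = 0 ∧ pt a b 0 ∈ X := hj
        subst h1
        exact ⟨⟨le_rfl, zero_le_one⟩, h2⟩
      · obtain ⟨h1, h2⟩ : t = 1 ∧ pt a b 1 ∈ X := hj
        subst h1
        exact ⟨⟨zero_le_one, le_rfl⟩, h2⟩
      · obtain ⟨h1, h2⟩ : t ∈ Ioo (0 : ℝ) 1 ∧ ∀ s ∈ Ioo (0 : ℝ) 1, pt a b s ∈ X := hj
        exact ⟨⟨h1.1.le, h1.2.le⟩, h2 t h1⟩

/-- moving along an edge -/
lemma joined_pt (X : Set (V → ℝ)) (a b : V) (s t : ℝ) (hst : s ≤ t)
    (h : ∀ r ∈ Icc s t, pt a b r ∈ X) : JoinedIn X (pt a b s) (pt a b t) := by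
  have h1 : JoinedIn (Icc s t) s t := by
    have hc : Convex ℝ (Icc s t) := convex_Icc s t
    exact (hc.isPathConnected ⟨s, le_rfl, hst⟩).joinedIn s ⟨le_rfl, hst⟩ t ⟨hst, le_rfl⟩
  have h2 := h1.map_continuousOn (continuous_pt a b).continuousOn
  exact h2.mono (by rintro _ ⟨r, hr, rfl⟩; exact h r hr)

end conn

/-! ### The graph -/

/-- The vertices: `(v, false)` are the vertices of the cycle, `(v, true)` are the leaves. -/
abbrev W := Fin 8 × Bool

/-- The cycle of length eight with a pendant edge at each vertex. -/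
def sun : SimpleGraph W where
  Adj a b := (a.2 = false ∧ b.2 = false ∧ (b.1 = a.1 + 1 ∨ a.1 = b.1 + 1)) ∨
    (a.1 = b.1 ∧ a.2 ≠ b.2)
  symm := ⟨by decide⟩
  loopless := ⟨by decide⟩

/-- The closed pendant edge at `v` and the half-open edge from `v` to `v + 1`. -/
def T (v : Fin 8) : Set (W → ℝ) :=
  pt (v, false) (v, true) '' Icc (0 : ℝ) 1 ∪ pt (v, false) (v + 1, false) '' Ico (0 : ℝ) 1

lemma adj_pend (v : Fin 8) : sun.Adj (v, false) (v, true) := Or.inr ⟨rfl, by simp⟩

lemma adj_cyc (v : Fin 8) : sun.Adj (v, false) (v + 1, false) := Or.inl ⟨rfl, rfl, Or.inl rfl⟩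

lemma T_sub (v : Fin 8) : T v ⊆ Cake sun := by
  rintro x (⟨t, ht, rfl⟩ | ⟨t, ht, rfl⟩)
  · exact Or.inr ⟨_, _, adj_pend v, t, ht, rfl⟩
  · exact Or.inr ⟨_, _, adj_cyc v, t, ⟨ht.1, ht.2.le⟩, rfl⟩

lemma vert_mem (v : Fin 8) : (Pi.single (v, false) 1 : W → ℝ) ∈ T v := by
  left
  exact ⟨0, ⟨le_rfl, zero_le_one⟩, pt_zero _ _⟩

lemma leaf_mem (v : Fin 8) : (Pi.single (v, true) 1 : W → ℝ) ∈ T v := by
  left
  exact ⟨1, ⟨zero_le_one, le_rfl⟩, pt_one _ _⟩

/-- the owner of the interior of an edge -/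
lemma owner (a b : W) (hab : sun.Adj a b) :
    ∃ v, (∀ t ∈ Ioo (0 : ℝ) 1, pt a b t ∈ T v) := by
  obtain ⟨a, p⟩ := a
  obtain ⟨b, q⟩ := b
  rcases hab with ⟨h1, h2, h3⟩ | ⟨h1, h2⟩
  · simp only at h1 h2 h3
    subst h1 h2
    rcases h3 with rfl | rfl
    · exact ⟨a, fun t ht => Or.inr ⟨t, ⟨ht.1.le, ht.2⟩, rfl⟩⟩
    · refine ⟨b, fun t ht => Or.inr ⟨1 - t, ⟨by linarith [ht.2], by linarith [ht.1]⟩, ?_⟩⟩
      rw [← pt_comm]
  · simp only at h1 h2
    subst h1
    cases p <;> cases q
    · exact absurd rfl h2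
    · exact ⟨a, fun t ht => Or.inl ⟨t, ⟨ht.1.le, ht.2.le⟩, rfl⟩⟩
    · refine ⟨a, fun t ht => Or.inl ⟨1 - t, ⟨by linarith [ht.2], by linarith [ht.1]⟩, ?_⟩⟩
      rw [← pt_comm]
    · exact absurd rfl h2

lemma T_cover (x : W → ℝ) (hx : x ∈ Cake sun) : ∃ v, x ∈ T v := by
  rcases hx with ⟨⟨v, p⟩, rfl⟩ | ⟨a, b, hab, t, ht, rfl⟩
  · cases p
    · exact ⟨v, vert_mem v⟩
    · exact ⟨v, leaf_mem v⟩
  · rcases ht.1.eq_or_lt with h0 | h0
    · rw [← h0, pt_zero]
      obtain ⟨a, p⟩ := a
      cases p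
      · exact ⟨a, vert_mem a⟩
      · exact ⟨a, leaf_mem a⟩
    · rcases ht.2.eq_or_lt with h1 | h1
      · rw [h1, pt_one]
        obtain ⟨b, q⟩ := b
        cases q
        · exact ⟨b, vert_mem b⟩
        · exact ⟨b, leaf_mem b⟩
      · obtain ⟨v, hv⟩ := owner a b hab
        exact ⟨v, hv t ⟨h0, h1⟩⟩

lemma T_disj (v w : Fin 8) (hvw : v ≠ w) (x : W → ℝ) (hv : x ∈ T v) (hw : x ∈ T w) : False := by
  have two : ∀ v w : Fin 8, w = v + 1 → v = w + 1 → False := by decide
  have one : ∀ v : Fin 8, v ≠ v + 1 := by decide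
  rcases hv with ⟨s, hs, rfl⟩ | ⟨s, hs, rfl⟩ <;> rcases hw with ⟨t, ht, h⟩ | ⟨t, ht, h⟩
  · have h1 := congrFun h (v, false)
    have h2 := congrFun h (v, true)
    simp [pt, hvw] at h1 h2
    linarith
  · have h1 := congrFun h (w, false)
    simp [pt, Ne.symm hvw, one w] at h1
    linarith [ht.2]
  · have h1 := congrFun h (v, false)
    simp [pt, hvw, one v] at h1
    linarith [hs.2]
  · have h1 := congrFun h (w, false)
    have h2 := congrFun h (v, false)
    simp only [pt, Prod.mk.injEq, and_true, if_true, if_neg (one w), if_neg (one v),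
      if_neg hvw, if_neg (Ne.symm hvw), zero_add, add_zero] at h1 h2
    by_cases e1 : w = v + 1
    · by_cases e2 : v = w + 1
      · exact two v w e1 e2
      · rw [if_neg e2] at h2
        linarith [hs.2]
    · rw [if_neg e1] at h1
      linarith [ht.2]

/-- The part `j` of the division with offset `o`. -/
def P (o : Fin 8) (j : Fin 4) : Set (W → ℝ) :=
  T (2 * (Fin.castLE (by norm_num) j) + o) ∪ T (2 * (Fin.castLE (by norm_num) j) + o + 1)

lemma T_conn (v : Fin 8) (x : W → ℝ) (hx : x ∈ T v) : JoinedIn (T v) (Pi.single (v, false) 1) x := by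
  rcases hx with ⟨t, ht, rfl⟩ | ⟨t, ht, rfl⟩
  · rw [← pt_zero (v, false) (v, true)]
    exact joined_pt _ _ _ 0 t ht.1 fun r hr => Or.inl ⟨r, ⟨hr.1, hr.2.trans ht.2⟩, rfl⟩
  · rw [← pt_zero (v, false) (v + 1, false)]
    exact joined_pt _ _ _ 0 t ht.1 fun r hr => Or.inr ⟨r, ⟨hr.1, lt_of_le_of_lt hr.2 ht.2⟩, rfl⟩

lemma TT_conn (v : Fin 8) : IsConn (T v ∪ T (v + 1)) := by
  have key : ∀ x ∈ T v ∪ T (v + 1), JoinedIn (T v ∪ T (v + 1)) (Pi.single (v, false) 1) x := by
    rintro x (hx | hx)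
    · exact (T_conn v x hx).mono subset_union_left
    · refine JoinedIn.trans ?_ ((T_conn (v + 1) x hx).mono subset_union_right)
      rw [← pt_zero (v, false) (v + 1, false), ← pt_one (v, false) (v + 1, false)]
      refine joined_pt _ _ _ 0 1 zero_le_one fun r hr => ?_
      rcases hr.2.eq_or_lt with h | h
      · right
        rw [h, pt_one]
        exact vert_mem _
      · left
        exact Or.inr ⟨r, ⟨hr.1, h⟩, rfl⟩
  intro x hx y hy
  exact (key x hx).symm.trans (key y hy)

lemma P_piece (o : Fin 8) (j : Fin 4) : IsPiece sun (P o j) ∧ IsConn (P o j) := by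
  refine ⟨isPiece_of _ _ ?_ ?_, TT_conn _⟩
  · rintro x (hx | hx)
    · exact T_sub _ hx
    · exact T_sub _ hx
  · intro a b hab
    obtain ⟨v, hv⟩ := owner a b hab
    set u := 2 * (Fin.castLE (by norm_num) j) + o with hu
    by_cases h1 : v = u
    · left
      intro t ht
      left
      have := hv t ht
      rwa [h1] at this
    · by_cases h2 : v = u + 1
      · left
        intro t ht
        right
        have := hv t ht
        rwa [h2] at this
      · right
        rintro t ht (h | h)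
        · exact T_disj _ _ h1 _ (hv t ht) h
        · exact T_disj _ _ h2 _ (hv t ht) h

lemma P_disj (o : Fin 8) (i j : Fin 4) (hij : i ≠ j) : Disjoint (P o i) (P o j) := by
  rw [Set.disjoint_left]
  have key : ∀ (o : Fin 8) (i j : Fin 4), i ≠ j →
      2 * (Fin.castLE (by norm_num : 4 ≤ 8) i) + o ≠ 2 * (Fin.castLE (by norm_num : 4 ≤ 8) j) + o ∧
      2 * (Fin.castLE (by norm_num : 4 ≤ 8) i) + o ≠
        2 * (Fin.castLE (by norm_num : 4 ≤ 8) j) + o + 1 ∧
      2 * (Fin.castLE (by norm_num : 4 ≤ 8) i) + o + 1 ≠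
        2 * (Fin.castLE (by norm_num : 4 ≤ 8) j) + o ∧
      2 * (Fin.castLE (by norm_num : 4 ≤ 8) i) + o + 1 ≠
        2 * (Fin.castLE (by norm_num : 4 ≤ 8) j) + o + 1 := by decide
  obtain ⟨h1, h2, h3, h4⟩ := key o i j hij
  rintro x (hx | hx) (hy | hy)
  · exact T_disj _ _ h1 x hx hy
  · exact T_disj _ _ h2 x hx hy
  · exact T_disj _ _ h3 x hx hy
  · exact T_disj _ _ h4 x hx hy

lemma P_cover (o : Fin 8) : (⋃ j, P o j) = Cake sun := by
  apply subset_antisymm
  · apply iUnion_subset
    rintro j x (hx | hx)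
    · exact T_sub _ hx
    · exact T_sub _ hx
  · intro x hx
    obtain ⟨v, hv⟩ := T_cover x hx
    have key : ∀ (o v : Fin 8), ∃ j : Fin 4,
        v = 2 * (Fin.castLE (by norm_num : 4 ≤ 8) j) + o ∨
        v = 2 * (Fin.castLE (by norm_num : 4 ≤ 8) j) + o + 1 := by decide
    obtain ⟨j, h | h⟩ := key o v
    · rw [mem_iUnion]
      exact ⟨j, Or.inl (h ▸ hv)⟩
    · rw [mem_iUnion]
      exact ⟨j, Or.inr (h ▸ hv)⟩

/-! ### The valuations -/

/-- The uniform probability measure on the pendant edge at `v`. -/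
noncomputable def nu (v : Fin 8) : Measure (W → ℝ) :=
  (volume.restrict (Icc (0 : ℝ) 1)).map (pt (v, false) (v, true))

/-- The measure with the value `c v` spread uniformly over the pendant edge at `v`. -/
noncomputable def mu (c : Fin 8 → ℕ) : Measure (W → ℝ) := ∑ v, (c v : ENNReal) • nu v

lemma meas_pt (a b : W) : Measurable (pt a b) := (continuous_pt a b).measurable

lemma nu_univ (v : Fin 8) : nu v univ = 1 := by
  rw [nu, Measure.map_apply (meas_pt _ _) MeasurableSet.univ]
  simp

lemma nu_le_one (v : Fin 8) (X : Set (W → ℝ)) : nu v X ≤ 1 :=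
  (measure_mono (subset_univ X)).trans (nu_univ v).le

lemma nu_eq_zero (v : Fin 8) (X : Set (W → ℝ)) (h : ∀ x ∈ X, x (v, true) ≤ 0) : nu v X = 0 := by
  have hm : MeasurableSet {x : W → ℝ | x (v, true) ≤ 0} :=
    measurableSet_le (measurable_pi_apply _) measurable_const
  have h1 : nu v {x : W → ℝ | x (v, true) ≤ 0} = 0 := by
    rw [nu, Measure.map_apply (meas_pt _ _) hm, Measure.restrict_apply ((meas_pt _ _) hm)]
    refine measure_mono_null (t := {0}) ?_ (by simp)
    rintro t ⟨ht1, ht2⟩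
    have h3 : pt (v, false) (v, true) t (v, true) ≤ 0 := ht1
    simp [pt] at h3
    exact le_antisymm h3 ht2.1
  exact measure_mono_null (fun x hx => h x hx) h1

lemma nu_eq_one (v : Fin 8) (X : Set (W → ℝ)) (h : T v ⊆ X) : nu v X = 1 := by
  refine le_antisymm (nu_le_one v X) ?_
  have hm : MeasurableSet (pt (v, false) (v, true) '' Icc (0 : ℝ) 1) :=
    (isCompact_Icc.image (continuous_pt _ _)).isClosed.measurableSet
  have h1 : 1 ≤ nu v (pt (v, false) (v, true) '' Icc (0 : ℝ) 1) := by
    rw [nu, Measure.map_apply (meas_pt _ _) hm, Measure.restrict_apply ((meas_pt _ _) hm)]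
    have h2 : Icc (0 : ℝ) 1 ⊆ (pt (v, false) (v, true) ⁻¹'
        (pt (v, false) (v, true) '' Icc (0 : ℝ) 1)) ∩ Icc (0 : ℝ) 1 :=
      fun t ht => ⟨⟨t, ht, rfl⟩, ht⟩
    refine le_trans ?_ (measure_mono h2)
    simp
  exact h1.trans (measure_mono (subset_union_left.trans h))

lemma mu_apply (c : Fin 8 → ℕ) (X : Set (W → ℝ)) : mu c X = ∑ v, (c v : ENNReal) * nu v X := by
  rw [mu, Measure.finsetSum_apply]
  rfl

lemma mu_le (c : Fin 8 → ℕ) (X : Set (W → ℝ)) (D : Finset (Fin 8))
    (h : ∀ v, v ∉ D → ∀ x ∈ X, x (v, true) ≤ 0) : mu c X ≤ ((∑ v ∈ D, c v : ℕ) : ENNReal) := by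
  rw [mu_apply]
  have h1 : ∑ v, (c v : ENNReal) * nu v X = ∑ v ∈ D, (c v : ENNReal) * nu v X := by
    symm
    apply Finset.sum_subset (Finset.subset_univ D)
    intro v _ hv
    rw [nu_eq_zero v X (h v hv), mul_zero]
  rw [h1, Nat.cast_sum]
  apply Finset.sum_le_sum
  intro v _
  calc (c v : ENNReal) * nu v X ≤ (c v : ENNReal) * 1 := by
        gcongr
        exact nu_le_one v X
    _ = c v := mul_one _

lemma le_mu (c : Fin 8 → ℕ) (X : Set (W → ℝ)) (D : Finset (Fin 8))
    (h : ∀ v ∈ D, T v ⊆ X) : ((∑ v ∈ D, c v : ℕ) : ENNReal) ≤ mu c X := by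
  rw [mu_apply]
  have h1 : ∑ v ∈ D, (c v : ENNReal) * nu v X ≤ ∑ v, (c v : ENNReal) * nu v X :=
    Finset.sum_le_sum_of_subset (Finset.subset_univ D)
  refine le_trans ?_ h1
  rw [Nat.cast_sum]
  apply Finset.sum_le_sum
  intro v hv
  rw [nu_eq_one v X (h v hv), mul_one]

lemma mu_lt_top (c : Fin 8 → ℕ) (X : Set (W → ℝ)) : mu c X < ⊤ := by
  refine lt_of_le_of_lt (mu_le c X Finset.univ ?_) (ENNReal.natCast_lt_top _)
  intro v hv
  exact absurd (Finset.mem_univ v) hv

lemma mu_finite (c : Fin 8 → ℕ) : IsFiniteMeasure (mu c) := ⟨mu_lt_top c univ⟩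

lemma nu_atom (v : Fin 8) (x : W → ℝ) : nu v {x} = 0 := by
  rw [nu, Measure.map_apply (meas_pt _ _) (measurableSet_singleton x),
    Measure.restrict_apply ((meas_pt _ _) (measurableSet_singleton x))]
  refine measure_mono_null (t := {x (v, true)}) ?_ (by simp)
  rintro t ⟨ht, -⟩
  have h1 : pt (v, false) (v, true) t = x := ht
  rw [mem_singleton_iff, ← h1]
  simp [pt]

lemma mu_atom (c : Fin 8 → ℕ) (x : W → ℝ) : mu c {x} = 0 := by
  rw [mu_apply]
  simp [nu_atom]

lemma nu_compl (v : Fin 8) : nu v (Cake sun)ᶜ = 0 := by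
  have hm : MeasurableSet (pt (v, false) (v, true) '' Icc (0 : ℝ) 1) :=
    (isCompact_Icc.image (continuous_pt _ _)).isClosed.measurableSet
  have h1 : nu v (pt (v, false) (v, true) '' Icc (0 : ℝ) 1)ᶜ = 0 := by
    rw [nu, Measure.map_apply (meas_pt _ _) hm.compl,
      Measure.restrict_apply ((meas_pt _ _) hm.compl)]
    convert measure_empty (μ := (volume : Measure ℝ))
    ext t
    simp only [mem_inter_iff, mem_empty_iff_false, iff_false]
    rintro ⟨h2, h3⟩
    exact h2 ⟨t, h3, rfl⟩
  refine measure_mono_null ?_ h1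
  rw [compl_subset_compl]
  exact subset_union_left.trans (T_sub v)

lemma mu_compl (c : Fin 8 → ℕ) : mu c (Cake sun)ᶜ = 0 := by
  rw [mu_apply]
  simp [nu_compl]

/-! ### The maximin shares -/

lemma five_le_mms (c : Fin 8 → ℕ) (o : Fin 8)
    (h : ∀ j : Fin 4, 5 ≤ c (2 * (Fin.castLE (by norm_num : 4 ≤ 8) j) + o) +
      c (2 * (Fin.castLE (by norm_num : 4 ≤ 8) j) + o + 1)) : 5 ≤ mms sun (mu c) 4 := by
  apply le_csSup
  · refine ⟨(mu c univ).toReal, ?_⟩
    rintro r ⟨Q, -, -, -, h4⟩
    refine (h4 0).trans ?_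
    exact ENNReal.toReal_mono (mu_lt_top c univ).ne (measure_mono (subset_univ _))
  · refine ⟨P o, P_piece o, P_disj o, P_cover o, ?_⟩
    intro j
    have h1 := le_mu c (P o j) {2 * (Fin.castLE (by norm_num : 4 ≤ 8) j) + o,
      2 * (Fin.castLE (by norm_num : 4 ≤ 8) j) + o + 1} (by
        intro v hv
        rw [Finset.mem_insert, Finset.mem_singleton] at hv
        rcases hv with rfl | rfl
        · exact subset_union_left
        · exact subset_union_right)
    have one : ∀ v : Fin 8, v ≠ v + 1 := by decide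
    rw [Finset.sum_pair (one _)] at h1
    have h2 : ((5 : ℕ) : ENNReal) ≤ mu c (P o j) := le_trans (by exact_mod_cast h j) h1
    have h3 := ENNReal.toReal_mono (mu_lt_top c _).ne h2
    rw [ENNReal.toReal_natCast] at h3
    exact_mod_cast h3

/-! ### No allocation -/

instance : DecidableRel sun.Adj := fun a b => by
  unfold sun
  infer_instance

lemma adj_leaf (v : Fin 8) (b : W) (h : sun.Adj (v, true) b) : b = (v, false) := by
  revert v b
  decide

lemma adj_cycle (v : Fin 8) (b : W) (h : sun.Adj (v, false) b) :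
    b = (v, true) ∨ b = (v + 1, false) ∨ b = (v - 1, false) := by
  revert v b
  decide

/-- no point of the cake lies in the interior of two pendant edges -/
lemma two_leaves (v w : Fin 8) (hvw : v ≠ w) (x : W → ℝ) (hx : x ∈ Cake sun)
    (h1 : 0 < x (v, true)) (h2 : 0 < x (w, true)) : False := by
  rcases hx with ⟨a, rfl⟩ | ⟨a, b, hab, t, ht, rfl⟩
  · by_cases h : (v, true) = a
    · subst h
      simp [Ne.symm hvw] at h2
    · rw [Pi.single_eq_of_ne h] at h1
      exact lt_irrefl _ h1
  · have ha : (v, true) = a ∨ (v, true) = b := by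
      by_contra hcon
      push Not at hcon
      simp [pt, hcon.1, hcon.2] at h1
    have hb : (w, true) = a ∨ (w, true) = b := by
      by_contra hcon
      push Not at hcon
      simp [pt, hcon.1, hcon.2] at h2
    rcases ha with rfl | rfl <;> rcases hb with hb | hb
    · exact hvw (congrArg Prod.fst hb).symm
    · have := adj_leaf v b hab
      rw [← hb] at this
      simp at this
    · have := adj_leaf v a hab.symm
      rw [← hb] at this
      simp at this
    · exact hvw (congrArg Prod.fst hb).symm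

section piece

variable (Z : Set (W → ℝ)) (hZ : Z ⊆ Cake sun) (hc : IsConn Z)

include hZ hc

/-- a connected piece which meets two pendant edges contains their roots -/
lemma root_mem (v w : Fin 8) (hvw : v ≠ w) (x y : W → ℝ) (hx : x ∈ Z) (hy : y ∈ Z)
    (h1 : 0 < x (v, true)) (h2 : 0 < y (w, true)) : Pi.single (v, false) 1 ∈ Z := by
  by_contra hcon
  have h3 := side sun {(v, true)} {(v, false)} (by
    intro u hu b hb
    rw [Finset.mem_singleton] at hu
    subst hu
    right
    rw [Finset.mem_singleton]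
    exact adj_leaf v b hb) Z hZ hc.isPreconnected (by
    intro u hu
    rw [Finset.mem_singleton] at hu
    rw [hu]
    exact hcon)
  rcases h3 with h3 | h3
  · have h4 := h3 y hy
    simp [tot] at h4
    exact two_leaves v w hvw y (hZ hy) h4 h2
  · have h4 := h3 x hx
    simp [tot] at h4
    linarith

/-- a connected piece which contains two roots contains a root next to the first of them -/
lemma next_mem (v w : Fin 8) (hvw : v ≠ w) (h1 : Pi.single (v, false) 1 ∈ Z)
    (h2 : Pi.single (w, false) 1 ∈ Z) :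
    Pi.single (v + 1, false) 1 ∈ Z ∨ Pi.single (v - 1, false) 1 ∈ Z := by
  by_contra hcon
  push Not at hcon
  have h3 := side sun {(v, false), (v, true)} {(v + 1, false), (v - 1, false)} (by
    intro u hu b hb
    rw [Finset.mem_insert, Finset.mem_singleton] at hu
    rcases hu with rfl | rfl
    · rcases adj_cycle v b hb with rfl | rfl | rfl <;> simp
    · have := adj_leaf v b hb
      subst this
      simp) Z hZ hc.isPreconnected (by
    intro u hu
    rw [Finset.mem_insert, Finset.mem_singleton] at hu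
    rcases hu with rfl | rfl
    · exact hcon.1
    · exact hcon.2)
  rcases h3 with h3 | h3
  · have h4 := h3 _ h2
    rw [tot_single] at h4
    simp [Ne.symm hvw] at h4
  · have h4 := h3 _ h1
    rw [tot_single] at h4
    simp at h4
    linarith

end piece

/-- The two kinds of agents. -/
def cA : Fin 8 → ℕ := ![1, 4, 4, 1, 3, 2, 2, 3]

/-- The two kinds of agents. -/
def cB : Fin 8 → ℕ := ![4, 4, 1, 3, 2, 2, 3, 1]

/-- The four agents. -/
def ag : Fin 4 → Fin 8 → ℕ := ![cA, cA, cB, cB]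

lemma finish : ∀ a : Fin 8, 5 ≤ ag 0 a + ag 0 (a + 1) →
    ∀ b : Fin 8, 5 ≤ ag 1 b + ag 1 (b + 1) → (a ≠ b ∧ a ≠ b + 1 ∧ b ≠ a + 1) →
    ∀ c : Fin 8, 5 ≤ ag 2 c + ag 2 (c + 1) → (a ≠ c ∧ a ≠ c + 1 ∧ c ≠ a + 1) →
      (b ≠ c ∧ b ≠ c + 1 ∧ c ≠ b + 1) →
    ∀ d : Fin 8, 5 ≤ ag 3 d + ag 3 (d + 1) → (a ≠ d ∧ a ≠ d + 1 ∧ d ≠ a + 1) →
      (b ≠ d ∧ b ≠ d + 1 ∧ d ≠ b + 1) → (c ≠ d ∧ c ≠ d + 1 ∧ d ≠ c + 1) → False := by
  decide

lemma no_alloc (Z : Fin 4 → Set (W → ℝ)) (hZ : ∀ i, Z i ⊆ Cake sun) (hc : ∀ i, IsConn (Z i))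
    (hd : ∀ i j, i ≠ j → Disjoint (Z i) (Z j)) (hv : ∀ i, 5 ≤ value (mu (ag i)) (Z i)) : False := by
  classical
  let D : Fin 4 → Finset (Fin 8) := fun i => Finset.univ.filter fun v => ∃ x ∈ Z i, 0 < x (v, true)
  let C : Fin 4 → Finset (Fin 8) := fun i =>
    Finset.univ.filter fun v => (Pi.single (v, false) 1 : W → ℝ) ∈ Z i
  have hD : ∀ i, 5 ≤ ∑ v ∈ D i, ag i v := by
    intro i
    have h1 := mu_le (ag i) (Z i) (D i) (by
      intro v hv x hx
      by_contra hcon
      push Not at hcon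
      apply hv
      simp only [D, Finset.mem_filter, Finset.mem_univ, true_and]
      exact ⟨x, hx, hcon⟩)
    have h2 := ENNReal.toReal_mono (ENNReal.natCast_ne_top _) h1
    rw [ENNReal.toReal_natCast] at h2
    have h3 := (hv i).trans h2
    exact_mod_cast h3
  have hag : ∀ i v, ag i v ≤ 4 := by decide
  have hD2 : ∀ i, 2 ≤ (D i).card := by
    intro i
    have h1 : ∑ v ∈ D i, ag i v ≤ (D i).card * 4 := by
      rw [← smul_eq_mul]
      exact Finset.sum_le_card_nsmul _ _ _ fun v _ => hag i v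
    have := hD i
    omega
  have hDC : ∀ i, D i ⊆ C i := by
    intro i v hv
    obtain ⟨w, hw, hne⟩ : ∃ w ∈ D i, w ≠ v := by
      have h1 : 1 < (D i).card := hD2 i
      exact Finset.exists_mem_ne h1 v
    simp only [D, Finset.mem_filter, Finset.mem_univ, true_and] at hv hw
    obtain ⟨x, hx, hxv⟩ := hv
    obtain ⟨y, hy, hyw⟩ := hw
    simp only [C, Finset.mem_filter, Finset.mem_univ, true_and]
    exact root_mem (Z i) (hZ i) (hc i) v w (Ne.symm hne) x y hx hy hxv hyw
  have hCd : ∀ i j, i ≠ j → Disjoint (C i) (C j) := by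
    intro i j hij
    rw [Finset.disjoint_left]
    intro v hv hw
    simp only [C, Finset.mem_filter, Finset.mem_univ, true_and] at hv hw
    exact Set.disjoint_left.1 (hd i j hij) hv hw
  have hcard : ∑ i, (C i).card ≤ 8 := by
    rw [← Finset.card_biUnion (fun i _ j _ hij => hCd i j hij)]
    exact (Finset.card_le_univ _).trans (by simp)
  have hC2 : ∀ i, 2 ≤ (C i).card := fun i => (hD2 i).trans (Finset.card_le_card (hDC i))
  have hC2' : ∀ i, (C i).card = 2 := by
    rw [Fin.sum_univ_four] at hcard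
    have h0 := hC2 0
    have h1 := hC2 1
    have h2 := hC2 2
    have h3 := hC2 3
    intro i
    fin_cases i <;> simp only [Fin.zero_eta, Fin.mk_one, Fin.reduceFinMk] <;> omega
  have hDC' : ∀ i, D i = C i := fun i =>
    Finset.eq_of_subset_of_card_le (hDC i) (by rw [hC2' i]; exact hD2 i)
  have key : ∀ i, ∃ a, C i = {a, a + 1} := by
    intro i
    obtain ⟨v, w, hvw, hC⟩ := Finset.card_eq_two.1 (hC2' i)
    have hvC : v ∈ C i := by rw [hC]; simp
    have hwC : w ∈ C i := by rw [hC]; simp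
    have hv' := hvC
    have hw' := hwC
    simp only [C, Finset.mem_filter, Finset.mem_univ, true_and] at hv' hw'
    rcases next_mem (Z i) (hZ i) (hc i) v w hvw hv' hw' with h | h
    · have h1 : v + 1 ∈ C i := by
        simp only [C, Finset.mem_filter, Finset.mem_univ, true_and]
        exact h
      rw [hC, Finset.mem_insert, Finset.mem_singleton] at h1
      have one : ∀ v : Fin 8, v + 1 ≠ v := by decide
      rcases h1 with h1 | h1
      · exact absurd h1 (one v)
      · exact ⟨v, by rw [hC, h1]⟩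
    · have h1 : v - 1 ∈ C i := by
        simp only [C, Finset.mem_filter, Finset.mem_univ, true_and]
        exact h
      rw [hC, Finset.mem_insert, Finset.mem_singleton] at h1
      have one : ∀ v : Fin 8, v - 1 ≠ v := by decide
      rcases h1 with h1 | h1
      · exact absurd h1 (one v)
      · refine ⟨w, ?_⟩
        rw [hC, ← h1, sub_add_cancel, Finset.pair_comm]
  choose a ha using key
  have one : ∀ v : Fin 8, v ≠ v + 1 := by decide
  have h5 : ∀ i, 5 ≤ ag i (a i) + ag i (a i + 1) := by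
    intro i
    have := hD i
    rw [hDC' i, ha i, Finset.sum_pair (one _)] at this
    exact this
  have h6 : ∀ i j, i ≠ j → (a i ≠ a j ∧ a i ≠ a j + 1 ∧ a j ≠ a i + 1) := by
    intro i j hij
    have h7 := hCd i j hij
    rw [ha i, ha j, Finset.disjoint_left] at h7
    refine ⟨fun h => ?_, fun h => ?_, fun h => ?_⟩
    · exact h7 (a := a i) (by simp) (by simp [h])
    · exact h7 (a := a i) (by simp) (by simp [h])
    · exact h7 (a := a j) (by simp [h]) (by simp)
  exact finish (a 0) (h5 0) (a 1) (h5 1) (h6 0 1 (by decide)) (a 2) (h5 2) (h6 0 2 (by decide))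
    (h6 1 2 (by decide)) (a 3) (h5 3) (h6 0 3 (by decide)) (h6 1 3 (by decide)) (h6 2 3 (by decide))

lemma not_guarantee : ¬ Guarantee sun 0 := by
  intro h
  obtain ⟨Z, h1, h2, h3⟩ := h 4 (by norm_num) (fun i => mu (ag i)) (fun i => mu_finite _)
    (fun i x => mu_atom _ x) (fun i => mu_compl _)
  refine no_alloc Z (fun i => (h1 i).1.1) (fun i => (h1 i).2) h2 fun i => le_trans ?_ (h3 i)
  show 5 ≤ mms sun (mu (ag i)) 4
  fin_cases i
  · exact five_le_mms cA 0 (by decide)
  · exact five_le_mms cA 0 (by decide)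
  · exact five_le_mms cB 1 (by decide)
  · exact five_le_mms cB 1 (by decide)

/-- There is a finite graph with positive maximin-share rank for additive valuations. -/
theorem result : ∃ (V : Type) (_ : Fintype V) (_ : DecidableEq V) (G : SimpleGraph V),
    0 < mmsRankAdd G := by
  refine ⟨W, inferInstance, inferInstance, sun, ?_⟩
  by_contra hcon
  have h0 : mmsRankAdd sun < 1 := by
    rw [not_lt, nonpos_iff_eq_zero] at hcon
    rw [hcon]
    exact zero_lt_one
  rw [mmsRankAdd, sInf_lt_iff] at h0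
  obtain ⟨r, ⟨k, rfl, hk⟩, hr⟩ := h0
  have : k = 0 := by
    have : k < 1 := by exact_mod_cast hr
    omega
  subst this
  exact not_guarantee hk

end Pool.Agent.Results.MP_ee2dc8_co.PositiveAdditiveRank
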